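import Mathlib

/-!
# Stable multi-matchings of marked Poisson processes: definitions

The index `i : ℕ` stands for the point `x i` of the configuration, `D i` is the number of its
stubs.
-/

set_option autoImplicit false

namespace Pool.Agent.U150.SM

open MeasureTheory ProbabilityTheory Set Filter Topology
open scoped ENNReal NNReal

/-- The number of indices `i` for which the point `x i ω` lies in the set `A`. -/
noncomputable def count {M Ω : Type} (x : ℕ → Ω → M) (A : Set M) (ω : Ω) : ℝ≥0∞ :=
  ∑' i, A.indicator (fun _ => (1 : ℝ≥0∞)) (x i ω)

/-- The sequence of random points `x 0, x 1, …` enumerates a homogeneous Poisson point process of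
intensity one: the number of points in a Borel set `A` of finite volume is Poisson with mean
`|A|`, and the numbers of points in finitely many disjoint such sets are independent. -/
structure IsPoissonProcess {M Ω : Type} [MeasureSpace M] [MeasurableSpace Ω] (P : Measure Ω)
    (x : ℕ → Ω → M) : Prop where
  measurable : ∀ i, Measurable (x i)
  law : ∀ A : Set M, MeasurableSet A → volume A ≠ ∞ → P.map (count x A) =
    (poissonMeasure (volume A).toNNReal).map (fun n : ℕ => (n : ℝ≥0∞))
  indep : ∀ (ι : Type) [Finite ι] (A : ι → Set M),
    (∀ i, MeasurableSet (A i)) → (∀ i, volume (A i) ≠ ∞) →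
    Pairwise (Function.onFun Disjoint A) → iIndepFun (fun i => count x (A i)) P

/-- The points `x 0, x 1, …` enumerate a homogeneous Poisson process of intensity one and,
conditionally on the points, the numbers `D 0, D 1, …` are independent with law `μ`. -/
structure IsMarkedPoisson {M Ω : Type} [MeasureSpace M] [MeasurableSpace Ω] (P : Measure Ω)
    (μ : PMF ℕ) (x : ℕ → Ω → M) (D : ℕ → Ω → ℕ) : Prop where
  points : IsPoissonProcess P x
  measurable : ∀ i, Measurable (D i)
  law : P.map (fun ω i => D i ω) = Measure.infinitePi (fun _ : ℕ => μ.toMeasure)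
  indep : IndepFun (fun ω i => x i ω) (fun ω i => D i ω) P

/-- `G` is a multi-matching for the degrees `D`: the point `i` has at most `D i` edges. -/
def IsMultiMatching (D : ℕ → ℕ) (G : SimpleGraph ℕ) : Prop :=
  ∀ i, (G.neighborSet i).encard ≤ D i

/-- The point `i` is willing to link to `j`: it has fewer than `D i` edges or an edge longer than
the distance between `i` and `j`. -/
def Willing {M : Type} [MetricSpace M] (x : ℕ → M) (D : ℕ → ℕ) (G : SimpleGraph ℕ)
    (i j : ℕ) : Prop :=
  (G.neighborSet i).encard < D i ∨ ∃ k, G.Adj i k ∧ dist (x i) (x j) < dist (x i) (x k)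

/-- `G` is a stable multi-matching of the points `x` with the numbers of stubs `D`: there are no
two different points, not joined by an edge, which are willing to link to each other. -/
structure IsStableMultiMatching {M : Type} [MetricSpace M] (x : ℕ → M) (D : ℕ → ℕ)
    (G : SimpleGraph ℕ) : Prop where
  matching : IsMultiMatching D G
  stable : ∀ i j, i ≠ j → ¬ G.Adj i j → ¬ (Willing x D G i j ∧ Willing x D G j i)

/-- The graph has an infinite connected component. -/
def HasInfiniteComponent (G : SimpleGraph ℕ) : Prop :=
  ∃ C : G.ConnectedComponent, C.supp.Infinite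

/-- The tail `μ({k, k+1, …})`. -/
noncomputable def tail (μ : PMF ℕ) (k : ℕ) : ℝ := (μ.toMeasure (Set.Ici k)).toReal

/-- The heavy tail condition: `k μ([k, ∞)) / log log k → ∞`. -/
def HeavyTail (μ : PMF ℕ) : Prop :=
  Tendsto (fun k : ℕ => (k : ℝ) * tail μ k / Real.log (Real.log k)) atTop atTop

end Pool.Agent.U150.SM
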