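import Pool.Agent.U150.SM.Defs

/-! Deterministic part: saturated pairs are adjacent, chains give infinite components. -/

set_option autoImplicit false

namespace Pool.Agent.U150.SM

open MeasureTheory ProbabilityTheory Set Filter Topology
open scoped ENNReal NNReal

variable {M : Type} [MetricSpace M]

/-- a point with at least as many stubs as there are points in a large set is willing to link to
every point of the set -/
theorem willing_of_card {x : ℕ → M} {D : ℕ → ℕ} {G : SimpleGraph ℕ} {i j : ℕ} {B : Set M}
    (hi : x i ∈ B) (hball : ∀ y, dist (x i) y ≤ dist (x i) (x j) → y ∈ B)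
    (hcard : {k | x k ∈ B}.encard ≤ D i) : Willing x D G i j := by
  by_contra h
  unfold Willing at h
  push Not at h
  obtain ⟨h1, h2⟩ := h
  have hsub : insert i (G.neighborSet i) ⊆ {k | x k ∈ B} := by
    intro k hk
    rcases Set.mem_insert_iff.1 hk with rfl | hk
    · exact hi
    · exact hball _ (h2 k hk)
  have hni : i ∉ G.neighborSet i := by simp
  have h3 := Set.encard_le_encard hsub
  rw [Set.encard_insert_of_notMem hni] at h3
  have h4 : (G.neighborSet i).encard + 1 ≤ (G.neighborSet i).encard :=
    h3.trans (hcard.trans h1)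
  have h5 : (G.neighborSet i).encard ≠ ⊤ := by
    intro htop
    have h6 := h3.trans hcard
    rw [htop] at h6
    simp at h6
  exact absurd h4 (not_le.2 (by
    have := ENat.add_one_le_iff h5 (n := (G.neighborSet i).encard + 1)
    exact this.1 le_rfl))

/-- two points with many stubs are adjacent -/
theorem adj_of_card {x : ℕ → M} {D : ℕ → ℕ} {G : SimpleGraph ℕ}
    (hG : IsStableMultiMatching x D G) {i j : ℕ} (hij : i ≠ j) {B : Set M}
    (hi : x i ∈ B) (hj : x j ∈ B)
    (hbi : ∀ y, dist (x i) y ≤ dist (x i) (x j) → y ∈ B)
    (hbj : ∀ y, dist (x j) y ≤ dist (x j) (x i) → y ∈ B)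
    (hci : {k | x k ∈ B}.encard ≤ D i) (hcj : {k | x k ∈ B}.encard ≤ D j) : G.Adj i j := by
  by_contra h
  exact hG.stable i j hij h ⟨willing_of_card hi hbi hci, willing_of_card hj hbj hcj⟩

/-- an injective sequence of successive neighbours lies in an infinite component -/
theorem infinite_of_chain {G : SimpleGraph ℕ} (f : ℕ → ℕ) (hf : Function.Injective f)
    (hadj : ∀ n, G.Adj (f n) (f (n + 1))) : HasInfiniteComponent G := by
  refine ⟨G.connectedComponentMk (f 0), ?_⟩
  refine (Set.infinite_range_of_injective hf).mono ?_
  rintro _ ⟨n, rfl⟩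
  have h : G.Reachable (f 0) (f n) := by
    induction n with
    | zero => exact SimpleGraph.Reachable.refl _
    | succ n ih => exact ih.trans (hadj n).reachable
  exact SimpleGraph.ConnectedComponent.sound h.symm

/-- The deterministic conclusion: if in all the late shells `A j` around `o` there is a point with
more stubs than there are points in a ball of eight times the inner radius... -/
theorem det {x : ℕ → M} {D : ℕ → ℕ} (o : M)
    (h : ∀ᶠ j : ℕ in atTop, ∃ i, (2 : ℝ) ^ j ≤ dist o (x i) ∧ dist o (x i) < 2 ^ (j + 1) ∧
      {k | x k ∈ Metric.closedBall o (2 ^ (j + 4))}.encard ≤ D i)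
    {G : SimpleGraph ℕ} (hG : IsStableMultiMatching x D G) :
    (∀ i, (G.neighborSet i).encard = D i) ∧ HasInfiniteComponent G := by
  obtain ⟨J, hJ⟩ := eventually_atTop.1 h
  choose! f hf using hJ
  have hlt : ∀ j k, J ≤ j → j < k → dist o (x (f j)) < dist o (x (f k)) := by
    intro j k hj hjk
    calc dist o (x (f j)) < 2 ^ (j + 1) := (hf j hj).2.1
      _ ≤ 2 ^ k := pow_le_pow_right₀ (by norm_num) hjk
      _ ≤ dist o (x (f k)) := (hf k (hj.trans hjk.le)).1
  have hne : ∀ j k, J ≤ j → j < k → f j ≠ f k := by
    intro j k hj hjk heq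
    have := hlt j k hj hjk
    rw [heq] at this
    exact lt_irrefl _ this
  -- willingness
  have hw : ∀ j, J ≤ j → ∀ i, dist o (x i) ≤ 2 ^ (j + 2) → Willing x D G (f j) i := by
    intro j hj i hi
    have h0 := (hf j hj).2.1
    have hp : (0 : ℝ) < 2 ^ j := by positivity
    refine willing_of_card (B := Metric.closedBall o (2 ^ (j + 4))) ?_ ?_ (hf j hj).2.2
    · rw [Metric.mem_closedBall, dist_comm]
      refine h0.le.trans (pow_le_pow_right₀ (by norm_num) (by omega))
    · intro y hy
      rw [Metric.mem_closedBall, dist_comm]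
      have h1 : dist o y ≤ dist o (x (f j)) + dist (x (f j)) y := dist_triangle _ _ _
      have h2 : dist (x (f j)) (x i) ≤ dist (x (f j)) o + dist o (x i) := dist_triangle _ _ _
      rw [dist_comm (x (f j)) o] at h2
      have e1 : (2 : ℝ) ^ (j + 1) = 2 * 2 ^ j := by ring
      have e2 : (2 : ℝ) ^ (j + 2) = 4 * 2 ^ j := by ring
      have e4 : (2 : ℝ) ^ (j + 4) = 16 * 2 ^ j := by ring
      rw [e1] at h0
      rw [e2] at hi
      rw [e4]
      linarith
  refine ⟨?_, ?_⟩
  · intro i
    by_contra hi
    have hlt' : (G.neighborSet i).encard < D i := lt_of_le_of_ne (hG.matching i) hi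
    obtain ⟨N, hN⟩ := pow_unbounded_of_one_lt (dist o (x i)) (one_lt_two)
    have hadj : ∀ j, J ≤ j → N ≤ j → f j ≠ i → G.Adj i (f j) := by
      intro j hj hNj hne'
      by_contra hna
      refine hG.stable i (f j) (Ne.symm hne') hna ⟨Or.inl hlt', hw j hj i ?_⟩
      refine hN.le.trans (pow_le_pow_right₀ (by norm_num) (by omega))
    have hinf : (G.neighborSet i).Infinite := by
      have hinj : Function.Injective (fun j : ℕ => f (j + (J + N))) := by
        intro a b hab
        by_contra hne'
        rcases Nat.lt_or_gt_of_ne hne' with h1 | h1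
        · exact hne _ _ (by omega) (by omega : a + (J + N) < b + (J + N)) hab
        · exact hne _ _ (by omega) (by omega : b + (J + N) < a + (J + N)) hab.symm
      have h1 : (Set.range fun j : ℕ => f (j + (J + N))).Infinite :=
        Set.infinite_range_of_injective hinj
      have h2 : ((Set.range fun j : ℕ => f (j + (J + N))) \ {i}).Infinite :=
        h1.sdiff (Set.finite_singleton i)
      refine h2.mono ?_
      rintro _ ⟨⟨j, rfl⟩, hj⟩
      exact hadj _ (by omega) (by omega) hj
    rw [hinf.encard_eq] at hlt'
    exact not_top_lt hlt'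
  · refine infinite_of_chain (fun n => f (n + J)) ?_ ?_
    · intro a b hab
      by_contra hne'
      rcases Nat.lt_or_gt_of_ne hne' with h1 | h1
      · exact hne _ _ (by omega) (by omega : a + J < b + J) hab
      · exact hne _ _ (by omega) (by omega : b + J < a + J) hab.symm
    · intro n
      by_contra hna
      refine hG.stable _ _ (hne _ _ (by omega) (by omega)) hna ⟨?_, ?_⟩
      · refine hw _ (by omega) _ ?_
        have := (hf (n + 1 + J) (by omega)).2.1
        refine this.le.trans (pow_le_pow_right₀ (by norm_num) (by omega))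
      · refine hw _ (by omega) _ ?_
        have := (hf (n + J) (by omega)).2.1
        refine this.le.trans (pow_le_pow_right₀ (by norm_num) (by omega))

end Pool.Agent.U150.SM
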