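import Pool.Agent.U150.SM.Defs

/-! Existence of stable multi-matchings of locally finite configurations. -/

set_option autoImplicit false

namespace Pool.Agent.U150.SM

open MeasureTheory ProbabilityTheory Set Filter Topology
open scoped ENNReal NNReal

/-- Extremal argument on a finite set of pairs. -/
theorem exists_edges (Pr : Finset (Sym2 ℕ)) (len : Sym2 ℕ → ℝ) (D : ℕ → ℕ) :
    ∃ E : Finset (Sym2 ℕ), E ⊆ Pr ∧ (∀ i, (E.filter fun e => i ∈ e).card ≤ D i) ∧
      ∀ i j, i ≠ j → s(i, j) ∈ Pr → s(i, j) ∉ E →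
        ¬ (((E.filter fun e => i ∈ e).card < D i ∨ ∃ e ∈ E, i ∈ e ∧ len s(i, j) < len e) ∧
          ((E.filter fun e => j ∈ e).card < D j ∨ ∃ e ∈ E, j ∈ e ∧ len s(i, j) < len e)) := by
  classical
  set w : Sym2 ℕ → ℝ := fun e => (1 / 3 : ℝ) ^ (Pr.filter fun f => len f < len e).card with hw
  set F : Finset (Finset (Sym2 ℕ)) :=
    Pr.powerset.filter fun E => ∀ i, (E.filter fun e => i ∈ e).card ≤ D i with hF
  have hne : F.Nonempty := ⟨∅, by simp [hF]⟩
  obtain ⟨E, hE, hmax⟩ := Finset.exists_max_image F (fun E => ∑ e ∈ E, w e) hne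
  rw [hF, Finset.mem_filter, Finset.mem_powerset] at hE
  refine ⟨E, hE.1, hE.2, ?_⟩
  rintro i j hij hPr hnE ⟨hi, hj⟩
  -- the sets to be removed
  have key : ∀ i : ℕ, i ∈ s(i, j) ∨ True → ((E.filter fun e => i ∈ e).card < D i ∨
      ∃ e ∈ E, i ∈ e ∧ len s(i, j) < len e) → True := fun _ _ _ => trivial
  have rem : ∀ v : ℕ, ((E.filter fun e => v ∈ e).card < D v ∨
      ∃ e ∈ E, v ∈ e ∧ len s(i, j) < len e) → ∃ R : Finset (Sym2 ℕ), R ⊆ E ∧
      ∑ e ∈ R, w e ≤ (1 / 3) * w s(i, j) ∧
      ((E \ R).filter fun e => v ∈ e).card + 1 ≤ D v := by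
    rintro v (h | ⟨e, heE, hve, hlen⟩)
    · refine ⟨∅, by simp, ?_, ?_⟩
      · simp only [Finset.sum_empty]
        have : 0 ≤ w s(i, j) := by rw [hw]; positivity
        linarith
      · rw [Finset.sdiff_empty]; exact h
    · refine ⟨{e}, by simpa using heE, ?_, ?_⟩
      · rw [Finset.sum_singleton]
        have hc : (Pr.filter fun f => len f < len s(i, j)).card + 1 ≤
            (Pr.filter fun f => len f < len e).card := by
          have hsub : insert s(i, j) (Pr.filter fun f => len f < len s(i, j)) ⊆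
              (Pr.filter fun f => len f < len e) := by
            intro f hf
            rcases Finset.mem_insert.1 hf with rfl | hf
            · exact Finset.mem_filter.2 ⟨hPr, hlen⟩
            · rw [Finset.mem_filter] at hf ⊢
              exact ⟨hf.1, hf.2.trans hlen⟩
          have h1 := Finset.card_le_card hsub
          rwa [Finset.card_insert_of_notMem (by simp)] at h1
        calc w e = (1 / 3 : ℝ) ^ (Pr.filter fun f => len f < len e).card := rfl
          _ ≤ (1 / 3 : ℝ) ^ ((Pr.filter fun f => len f < len s(i, j)).card + 1) :=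
              pow_le_pow_of_le_one (by norm_num) (by norm_num) hc
          _ = (1 / 3) * w s(i, j) := by rw [pow_succ]; ring
      · have h1 : ((E \ {e}).filter fun f => v ∈ f) = (E.filter fun f => v ∈ f).erase e := by
          ext f
          simp only [Finset.mem_filter, Finset.mem_sdiff, Finset.mem_singleton, Finset.mem_erase]
          tauto
        have h2 : e ∈ E.filter fun f => v ∈ f := Finset.mem_filter.2 ⟨heE, hve⟩
        rw [h1, Finset.card_erase_of_mem h2]
        have h3 : 0 < (E.filter fun f => v ∈ f).card := Finset.card_pos.2 ⟨e, h2⟩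
        have := hE.2 v
        omega
  obtain ⟨R1, hR1, hs1, hd1⟩ := rem i hi
  obtain ⟨R2, hR2, hs2, hd2⟩ := rem j hj
  set E' : Finset (Sym2 ℕ) := insert s(i, j) (E \ (R1 ∪ R2)) with hE'
  have hE'F : E' ∈ F := by
    rw [hF, Finset.mem_filter, Finset.mem_powerset]
    refine ⟨?_, ?_⟩
    · intro f hf
      rcases Finset.mem_insert.1 hf with rfl | hf
      · exact hPr
      · exact hE.1 (Finset.mem_sdiff.1 hf).1
    · intro v
      by_cases hv : v = i ∨ v = j
      · have h0 : (E'.filter fun f => v ∈ f).card ≤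
            ((E \ (R1 ∪ R2)).filter fun f => v ∈ f).card + 1 := by
          have : (E'.filter fun f => v ∈ f) ⊆
              insert s(i, j) ((E \ (R1 ∪ R2)).filter fun f => v ∈ f) := by
            intro f hf
            rw [Finset.mem_filter] at hf
            rcases Finset.mem_insert.1 hf.1 with rfl | h
            · exact Finset.mem_insert_self _ _
            · exact Finset.mem_insert_of_mem (Finset.mem_filter.2 ⟨h, hf.2⟩)
          exact (Finset.card_le_card this).trans (Finset.card_insert_le _ _)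
        rcases hv with rfl | rfl
        · have h1 : ((E \ (R1 ∪ R2)).filter fun f => v ∈ f).card ≤
              ((E \ R1).filter fun f => v ∈ f).card := by
            refine Finset.card_le_card (Finset.filter_subset_filter _ ?_)
            exact Finset.sdiff_subset_sdiff (Finset.Subset.refl _) Finset.subset_union_left
          omega
        · have h1 : ((E \ (R1 ∪ R2)).filter fun f => v ∈ f).card ≤
              ((E \ R2).filter fun f => v ∈ f).card := by
            refine Finset.card_le_card (Finset.filter_subset_filter _ ?_)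
            exact Finset.sdiff_subset_sdiff (Finset.Subset.refl _) Finset.subset_union_right
          omega
      · push Not at hv
        refine le_trans (Finset.card_le_card ?_) (hE.2 v)
        intro f hf
        rw [Finset.mem_filter] at hf ⊢
        rcases Finset.mem_insert.1 hf.1 with rfl | h
        · exfalso
          have := hf.2
          rw [Sym2.mem_iff] at this
          tauto
        · exact ⟨(Finset.mem_sdiff.1 h).1, hf.2⟩
  have h1 := hmax E' hE'F
  have hR : R1 ∪ R2 ⊆ E := Finset.union_subset hR1 hR2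
  have h2 : ∑ e ∈ E', w e = w s(i, j) + ∑ e ∈ E \ (R1 ∪ R2), w e := by
    rw [hE', Finset.sum_insert]
    intro h
    exact hnE (Finset.mem_sdiff.1 h).1
  have h3 : ∑ e ∈ E \ (R1 ∪ R2), w e + ∑ e ∈ R1 ∪ R2, w e = ∑ e ∈ E, w e :=
    Finset.sum_sdiff hR
  have hwnn : ∀ e, 0 ≤ w e := fun e => by rw [hw]; positivity
  have h4 : ∑ e ∈ R1 ∪ R2, w e ≤ ∑ e ∈ R1, w e + ∑ e ∈ R2, w e := by
    rw [← Finset.sum_union_inter]
    have : 0 ≤ ∑ e ∈ R1 ∩ R2, w e := Finset.sum_nonneg fun e _ => hwnn e
    linarith
  have h5 : 0 < w s(i, j) := by rw [hw]; positivity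
  linarith

/-- Finite version. -/
theorem exists_finite {M : Type} [MetricSpace M] (x : ℕ → M) (D : ℕ → ℕ) (n : ℕ) :
    ∃ G : SimpleGraph ℕ, IsMultiMatching D G ∧ ∀ i j, i < n → j < n → i ≠ j → ¬ G.Adj i j →
      ¬ (Willing x D G i j ∧ Willing x D G j i) := by
  classical
  set len : Sym2 ℕ → ℝ := Sym2.lift ⟨fun a b => dist (x a) (x b), fun a b => dist_comm _ _⟩
    with hlen
  set Pr : Finset (Sym2 ℕ) := ((Finset.range n ×ˢ Finset.range n).filter
    fun p => p.1 ≠ p.2).image (fun p => s(p.1, p.2)) with hPr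
  obtain ⟨E, hEP, hEd, hEs⟩ := exists_edges Pr len D
  have hnd : ∀ e ∈ E, ¬ e.IsDiag := by
    intro e he
    have := hEP he
    rw [hPr, Finset.mem_image] at this
    obtain ⟨p, hp, rfl⟩ := this
    rw [Finset.mem_filter] at hp
    rw [Sym2.mk_isDiag_iff]
    exact hp.2
  set G : SimpleGraph ℕ := SimpleGraph.fromEdgeSet (E : Set (Sym2 ℕ)) with hG
  have hadj : ∀ a b, G.Adj a b ↔ s(a, b) ∈ E := by
    intro a b
    rw [hG, SimpleGraph.fromEdgeSet_adj]
    constructor
    · rintro ⟨h, _⟩; exact_mod_cast h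
    · intro h
      refine ⟨by exact_mod_cast h, ?_⟩
      rintro rfl
      exact hnd _ h (Sym2.mk_isDiag_iff.2 rfl)
  have hcard : ∀ i, (G.neighborSet i).encard = (E.filter fun e => i ∈ e).card := by
    intro i
    have h1 : (fun b => s(i, b)) '' (G.neighborSet i) = ((E.filter fun e => i ∈ e : Finset _) :
        Set (Sym2 ℕ)) := by
      ext e
      simp only [Set.mem_image, SimpleGraph.mem_neighborSet, Finset.coe_filter, Set.mem_ofPred_eq]
      constructor
      · rintro ⟨b, hb, rfl⟩
        exact ⟨(hadj _ _).1 hb, Sym2.mem_mk_left _ _⟩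
      · rintro ⟨he, hi⟩
        obtain ⟨b, rfl⟩ := Sym2.mem_iff_exists.1 hi
        exact ⟨b, (hadj _ _).2 he, rfl⟩
    have hinj : Function.Injective (fun b : ℕ => s(i, b)) := by
      intro a b hab
      exact Sym2.congr_right.1 hab
    rw [← hinj.encard_image, h1, Set.encard_coe_eq_coe_finsetCard]
  refine ⟨G, ?_, ?_⟩
  · intro i
    rw [hcard i]
    exact_mod_cast hEd i
  · rintro i j hi hj hij hna ⟨h1, h2⟩
    have hmem : s(i, j) ∈ Pr := by
      rw [hPr, Finset.mem_image]
      exact ⟨(i, j), Finset.mem_filter.2 ⟨Finset.mem_product.2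
        ⟨Finset.mem_range.2 hi, Finset.mem_range.2 hj⟩, hij⟩, rfl⟩
    have hnE : s(i, j) ∉ E := fun h => hna ((hadj _ _).2 h)
    refine hEs i j hij hmem hnE ⟨?_, ?_⟩
    · rcases h1 with h1 | ⟨k, hk, hd⟩
      · left
        rw [hcard i] at h1
        exact_mod_cast h1
      · right
        exact ⟨s(i, k), (hadj _ _).1 hk, Sym2.mem_mk_left _ _, hd⟩
    · rcases h2 with h2 | ⟨k, hk, hd⟩
      · left
        rw [hcard j] at h2
        exact_mod_cast h2
      · right
        refine ⟨s(j, k), (hadj _ _).1 hk, Sym2.mem_mk_left _ _, ?_⟩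
        show dist (x i) (x j) < dist (x j) (x k)
        rw [dist_comm (x i) (x j)]
        exact hd

/-- Every locally finite configuration has a stable multi-matching. -/
theorem exists_stable {M : Type} [MetricSpace M] (x : ℕ → M) (D : ℕ → ℕ)
    (hlf : ∀ i (r : ℝ), {k | dist (x i) (x k) ≤ r}.Finite) :
    ∃ G : SimpleGraph ℕ, IsStableMultiMatching x D G := by
  classical
  choose Gn hm hs using exists_finite x D
  let U : Ultrafilter ℕ := Filter.hyperfilter ℕ
  set G : SimpleGraph ℕ :=
    { Adj := fun i j => ∀ᶠ n in (U : Filter ℕ), (Gn n).Adj i j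
      symm := ⟨fun i j h => h.mono fun n hn => hn.symm⟩
      loopless := ⟨fun i h => by
        obtain ⟨n, hn⟩ := h.exists
        exact (Gn n).loopless.irrefl i hn⟩ } with hG
  have hadj : ∀ i j, G.Adj i j ↔ ∀ᶠ n in (U : Filter ℕ), (Gn n).Adj i j := fun i j => Iff.rfl
  have hnadj : ∀ i j, ¬ G.Adj i j ↔ ∀ᶠ n in (U : Filter ℕ), ¬ (Gn n).Adj i j := by
    intro i j
    rw [hadj, Ultrafilter.eventually_not]
  have hfin : ∀ (i : ℕ) (F : Set ℕ), F.Finite → ∀ᶠ n in (U : Filter ℕ),
      ∀ k ∈ F, ((Gn n).Adj i k ↔ G.Adj i k) := by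
    intro i F hF
    rw [Filter.eventually_all_finite hF]
    intro k _
    by_cases h : G.Adj i k
    · filter_upwards [(hadj i k).1 h] with n hn
      simp [hn, h]
    · filter_upwards [(hnadj i k).1 h] with n hn
      simp [hn, h]
  have hdeg : IsMultiMatching D G := by
    intro i
    by_contra hlt
    push Not at hlt
    obtain ⟨t, ht, htc⟩ := Set.exists_subset_encard_eq (k := (D i : ℕ∞) + 1)
      (s := G.neighborSet i) (Order.add_one_le_of_lt hlt)
    have htf : t.Finite := by
      rw [← Set.encard_ne_top_iff, htc]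
      exact ENat.natCast_ne_top (D i + 1)
    obtain ⟨n, hn⟩ := (hfin i t htf).exists
    have h1 : t ⊆ (Gn n).neighborSet i := fun k hk => (hn k hk).2 (ht hk)
    have h2 := (Set.encard_le_encard h1).trans (hm n i)
    rw [htc] at h2
    have : ((D i : ℕ∞)) + 1 = ((D i + 1 : ℕ) : ℕ∞) := by push_cast; rfl
    rw [this] at h2
    have h3 : D i + 1 ≤ D i := by exact_mod_cast h2
    omega
  have hwill : ∀ i j, Willing x D G i j → ∀ᶠ n in (U : Filter ℕ), Willing x D (Gn n) i j := by
    intro i j h
    rcases h with h | ⟨k, hk, hd⟩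
    · have hF := hlf i (dist (x i) (x j))
      filter_upwards [hfin i _ hF] with n hn
      by_contra hnw
      unfold Willing at hnw
      push Not at hnw
      have hsub : (Gn n).neighborSet i ⊆ G.neighborSet i := by
        intro k hk
        exact (hn k (hnw.2 k hk)).1 hk
      exact absurd h (not_lt.2 (hnw.1.trans (Set.encard_le_encard hsub)))
    · filter_upwards [(hadj i k).1 hk] with n hn
      exact Or.inr ⟨k, hn, hd⟩
  refine ⟨G, hdeg, ?_⟩
  rintro i j hij hna ⟨h1, h2⟩
  have hge : ∀ m : ℕ, ∀ᶠ n in (U : Filter ℕ), m < n := by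
    intro m
    have : (U : Filter ℕ) ≤ Filter.cofinite := Filter.hyperfilter_le_cofinite
    have h3 : ∀ᶠ n in Filter.cofinite, m < n := by
      rw [Nat.cofinite_eq_atTop]
      exact eventually_gt_atTop m
    exact this h3
  obtain ⟨n, hn1, hn2, hn3, hn4, hn5⟩ := ((hwill i j h1).and ((hwill j i h2).and
    (((hnadj i j).1 hna).and ((hge i).and (hge j))))).exists
  exact hs n i j hn4 hn5 hij hn3 ⟨hn1, hn2⟩

end Pool.Agent.U150.SM
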