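import Pool.Agent.U150.SM.Defs
import Pool.Agent.Helper56_LP.Ppp

/-! Probability estimates. -/

set_option autoImplicit false

namespace Pool.Agent.U150.SM

open MeasureTheory ProbabilityTheory Set Filter Topology
open scoped ENNReal NNReal

variable {M Ω : Type}

theorem count_eq (x : ℕ → Ω → M) (A : Set M) (ω : Ω) :
    count x A ω = ({i | x i ω ∈ A}.encard : ℝ≥0∞) := by
  unfold count
  rw [← ENNReal.tsum_set_one, tsum_subtype {i | x i ω ∈ A} (fun _ => (1 : ℝ≥0∞))]
  rfl

theorem measurable_count [MeasurableSpace M] [MeasurableSpace Ω] {x : ℕ → Ω → M}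
    (hx : ∀ i, Measurable (x i)) {A : Set M} (hA : MeasurableSet A) :
    Measurable (count x A) := by
  unfold count
  refine Measurable.tsum fun i => ?_
  exact (measurable_const.indicator hA).comp (hx i)

/-- the exponential moment of the Poisson law -/
theorem poisson_two_pow (r : ℝ≥0) :
    ∫⁻ n : ℕ, (2 : ℝ≥0∞) ^ n ∂(poissonMeasure r) = ENNReal.ofReal (Real.exp r) := by
  rw [poissonMeasure, lintegral_sum_measure]
  simp_rw [lintegral_smul_measure, lintegral_dirac, smul_eq_mul]
  have h2 : ∀ n : ℕ, ENNReal.ofReal (Real.exp (-r) * r ^ n / (n.factorial)) * (2 : ℝ≥0∞) ^ n =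
      ENNReal.ofReal (Real.exp (-r) * ((r * 2) ^ n / n.factorial)) := by
    intro n
    have h3 : (2 : ℝ≥0∞) = ENNReal.ofReal 2 := by simp
    rw [h3, ← ENNReal.ofReal_pow (by norm_num), ← ENNReal.ofReal_mul (by positivity)]
    congr 1
    rw [mul_pow]
    ring
  simp_rw [h2]
  have h3 : HasSum (fun n : ℕ => Real.exp (-r) * (((r : ℝ) * 2) ^ n / n.factorial))
      (Real.exp (-r) * Real.exp (r * 2)) := by
    have := (NormedSpace.expSeries_div_hasSum_exp ((r:ℝ) * 2))
    rw [← Real.exp_eq_exp_ℝ] at this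
    exact this.mul_left _
  rw [← ENNReal.ofReal_tsum_of_nonneg (fun n => by positivity) h3.summable, h3.tsum_eq,
    ← Real.exp_add]
  congr 2
  ring

variable [MeasureSpace M] [MeasurableSpace Ω] {P : Measure Ω} [IsProbabilityMeasure P]
  {μ : PMF ℕ} {x : ℕ → Ω → M} {D : ℕ → Ω → ℕ}

omit [IsProbabilityMeasure P] in
theorem lintegral_count {f : ℝ≥0∞ → ℝ≥0∞} (hf : Measurable f) (hx : IsPoissonProcess P x)
    {A : Set M} (hA : MeasurableSet A) (hv : volume A ≠ ∞) :
    ∫⁻ ω, f (count x A ω) ∂P =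
      ∫⁻ n : ℕ, f (n : ℝ≥0∞) ∂(poissonMeasure (volume A).toNNReal) := by
  rw [← lintegral_map hf (measurable_count hx.measurable hA), hx.law A hA hv,
    lintegral_map hf (Measurable.of_discrete)]

/-- the upper tail -/
theorem upper_tail (hx : IsPoissonProcess P x) {A : Set M} (hA : MeasurableSet A)
    (hv : volume A ≠ ∞) (K : ℕ) :
    P {ω | (K : ℝ≥0∞) ≤ count x A ω} ≤
      ENNReal.ofReal (Real.exp (volume A).toReal * (1 / 2) ^ K) := by
  have hm : Measurable (Set.indicator (Set.Ici (K : ℝ≥0∞)) (fun _ => (1 : ℝ≥0∞))) :=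
    measurable_const.indicator measurableSet_Ici
  have h1 : P {ω | (K : ℝ≥0∞) ≤ count x A ω} =
      ∫⁻ ω, (Set.indicator (Set.Ici (K : ℝ≥0∞)) (fun _ => (1 : ℝ≥0∞))) (count x A ω) ∂P := by
    have h2 : MeasurableSet {ω | (K : ℝ≥0∞) ≤ count x A ω} :=
      measurableSet_le measurable_const (measurable_count hx.measurable hA)
    rw [← lintegral_indicator_one h2]
    rfl
  rw [h1, lintegral_count hm hx hA hv]
  calc ∫⁻ n : ℕ, (Set.indicator (Set.Ici (K : ℝ≥0∞)) (fun _ => (1 : ℝ≥0∞))) (n : ℝ≥0∞)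
        ∂(poissonMeasure (volume A).toNNReal)
      ≤ ∫⁻ n : ℕ, (2 : ℝ≥0∞) ^ n * ENNReal.ofReal ((1 / 2) ^ K)
        ∂(poissonMeasure (volume A).toNNReal) := by
        refine lintegral_mono fun n => ?_
        by_cases hn : (K : ℝ≥0∞) ≤ n
        · have hn' : K ≤ n := by exact_mod_cast hn
          rw [Set.indicator_of_mem (show (n : ℝ≥0∞) ∈ Set.Ici (K : ℝ≥0∞) from hn)]
          have h3 : (2 : ℝ≥0∞) = ENNReal.ofReal 2 := by simp
          rw [h3, ← ENNReal.ofReal_pow (by norm_num), ← ENNReal.ofReal_mul (by positivity),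
            ENNReal.one_le_ofReal]
          calc (1 : ℝ) = 2 ^ K * (1 / 2) ^ K := by rw [← mul_pow]; norm_num
            _ ≤ 2 ^ n * (1 / 2) ^ K :=
                mul_le_mul_of_nonneg_right (pow_le_pow_right₀ (by norm_num) hn') (by positivity)
        · rw [Set.indicator_of_notMem (show (n : ℝ≥0∞) ∉ Set.Ici (K : ℝ≥0∞) from hn)]
          exact bot_le
    _ = ENNReal.ofReal (Real.exp (volume A).toReal * (1 / 2) ^ K) := by
        rw [lintegral_mul_const _ Measurable.of_discrete, poisson_two_pow,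
          ← ENNReal.ofReal_mul (Real.exp_pos _).le]
        rfl

omit [IsProbabilityMeasure P] in
/-- the number of points in a set of finite volume is finite -/
theorem ae_finite (hx : IsPoissonProcess P x) {A : Set M} (hA : MeasurableSet A)
    (hv : volume A ≠ ∞) : ∀ᵐ ω ∂P, {i | x i ω ∈ A}.Finite := by
  have h1 : P.map (count x A) {∞} = 0 := by
    rw [hx.law A hA hv, Measure.map_apply Measurable.of_discrete (measurableSet_singleton _)]
    have : (fun n : ℕ => (n : ℝ≥0∞)) ⁻¹' {∞} = ∅ := by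
      ext n; simp
    rw [this, measure_empty]
  rw [Measure.map_apply (measurable_count hx.measurable hA) (measurableSet_singleton _)] at h1
  have h2 : ∀ᵐ ω ∂P, count x A ω ≠ ∞ := by
    rw [ae_iff]
    simpa [Set.preimage] using h1
  filter_upwards [h2] with ω hω
  rw [count_eq] at hω
  rw [← Set.encard_ne_top_iff]
  intro h
  rw [h] at hω
  exact hω rfl

omit [MeasureSpace M] [MeasurableSpace Ω] in
theorem marks_le (μ : PMF ℕ) (K : ℕ) (S : Set ℕ) (hS : S.Finite) :
    (Measure.infinitePi (fun _ : ℕ => μ.toMeasure)) {d | ∀ i ∈ S, d i < K} ≤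
      (1 - μ.toMeasure (Set.Ici K)) ^ S.ncard := by
  have h1 : {d : ℕ → ℕ | ∀ i ∈ S, d i < K} =
      Set.pi (hS.toFinset : Set ℕ) (fun _ => Set.Iio K) := by
    ext d; simp
  rw [h1, Measure.infinitePi_pi _ (fun _ _ => MeasurableSet.of_discrete), Finset.prod_const,
    ← Set.ncard_eq_toFinset_card S hS]
  have h2 : μ.toMeasure (Set.Iio K) = 1 - μ.toMeasure (Set.Ici K) := by
    have h3 : Set.Iio K = (Set.Ici K)ᶜ := by simp
    rw [h3, prob_compl_eq_one_sub (MeasurableSet.of_discrete)]
  rw [h2]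

/-- no point of `A` has a large mark -/
theorem marked_void (h : IsMarkedPoisson P μ x D) {A : Set M} (hA : MeasurableSet A)
    (hv : volume A ≠ ∞) (K : ℕ) :
    P {ω | ∀ i, x i ω ∈ A → D i ω < K} ≤
      ENNReal.ofReal (Real.exp (-((volume A).toReal * tail μ K))) := by
  set c : ℝ≥0∞ := μ.toMeasure (Set.Ici K) with hc
  have hc1 : c ≤ 1 := prob_le_one
  set T : Set ((ℕ → M) × (ℕ → ℕ)) := {p | ∀ i, p.1 i ∈ A → p.2 i < K} with hT
  have hTm : MeasurableSet T := by
    have : T = ⋂ i, {p : (ℕ → M) × (ℕ → ℕ) | p.1 i ∈ A → p.2 i < K} := by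
      ext p; simp [hT]
    rw [this]
    refine MeasurableSet.iInter fun i => ?_
    have e : {p : (ℕ → M) × (ℕ → ℕ) | p.1 i ∈ A → p.2 i < K} =
        {p : (ℕ → M) × (ℕ → ℕ) | p.1 i ∈ A}ᶜ ∪ {p | p.2 i < K} := by
      ext p; simp [imp_iff_not_or]
    rw [e]
    refine MeasurableSet.union (MeasurableSet.compl ?_) ?_
    · exact ((measurable_pi_apply i).comp measurable_fst) hA
    · exact measurableSet_lt ((measurable_pi_apply i).comp measurable_snd) measurable_const
  have hX : Measurable (fun ω i => x i ω) := measurable_pi_iff.mpr h.points.measurable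
  have hD : Measurable (fun ω i => D i ω) := measurable_pi_iff.mpr h.measurable
  have h1 : P {ω | ∀ i, x i ω ∈ A → D i ω < K} =
      (P.map (fun ω => ((fun i => x i ω), (fun i => D i ω)))) T := by
    rw [Measure.map_apply (hX.prodMk hD) hTm]
    rfl
  have h2 := (indepFun_iff_map_prod_eq_prod_map_map hX.aemeasurable hD.aemeasurable).1 h.indep
  rw [h1, h2, h.law, Measure.prod_apply hTm, lintegral_map (measurable_measure_prodMk_left hTm) hX]
  set g : ℝ≥0∞ → ℝ≥0∞ := fun t => (1 - c) ^ (⌊t.toReal⌋₊) with hg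
  have hgm : Measurable g := by
    rw [hg]
    have h3 : Measurable (fun t : ℝ≥0∞ => ⌊t.toReal⌋₊) :=
      Nat.measurable_floor.comp ENNReal.measurable_toReal
    have h4 : Measurable (fun n : ℕ => (1 - c) ^ n) := Measurable.of_discrete
    exact h4.comp h3
  calc ∫⁻ ω, (Measure.infinitePi (fun _ : ℕ => μ.toMeasure)) (Prod.mk (fun i => x i ω) ⁻¹' T) ∂P
      ≤ ∫⁻ ω, g (count x A ω) ∂P := by
        refine lintegral_mono fun ω => ?_
        rw [count_eq]
        by_cases hfin : {i | x i ω ∈ A}.Finite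
        · have h5 := marks_le μ K _ hfin
          refine (h5.trans (le_of_eq ?_))
          rw [hg]
          simp only
          congr 1
          rw [← hfin.cast_ncard_eq]
          simp
        · have h6 : {i | x i ω ∈ A}.encard = ⊤ := Set.encard_eq_top_iff.2 hfin
          rw [h6, hg]
          simp only
          have : ((⊤ : ℕ∞) : ℝ≥0∞) = ∞ := rfl
          rw [this]
          simp only [ENNReal.toReal_top, Nat.floor_zero, pow_zero]
          exact prob_le_one
    _ = ∫⁻ n : ℕ, (1 - c) ^ n ∂(poissonMeasure (volume A).toNNReal) := by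
        rw [lintegral_count hgm h.points hA hv]
        refine lintegral_congr fun n => ?_
        rw [hg]
        simp
    _ = ENNReal.ofReal (Real.exp (-((volume A).toReal * tail μ K))) := by
        rw [Pool.Agent.Helper56_LP.poisson_pgf _ c hc1]
        rfl

end Pool.Agent.U150.SM
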