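import Pool.Agent.U150.SM.Det
import Pool.Agent.U150.SM.Exi
import Pool.Agent.U150.SM.Prob

/-! The Borel-Cantelli argument. -/

set_option autoImplicit false

namespace Pool.Agent.U150.SM

open MeasureTheory ProbabilityTheory Set Filter Topology
open scoped ENNReal NNReal

variable {M Ω : Type} [MeasureSpace M] [MetricSpace M] [OpensMeasurableSpace M]
  [MeasurableSpace Ω] {P : Measure Ω} [IsProbabilityMeasure P]
  {μ : PMF ℕ} {x : ℕ → Ω → M} {D : ℕ → Ω → ℕ}

/-- growth of the volumes of balls and shells around `o` -/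
structure Growth (M : Type) [MeasureSpace M] [MetricSpace M] (o : M) (d : ℕ) (a b : ℝ) :
    Prop where
  hd : 1 ≤ d
  ha : 0 < a
  hb : 0 < b
  fin : ∀ r : ℝ, volume (Metric.closedBall o r) ≠ ∞
  ball : ∀ j : ℕ, (volume (Metric.closedBall o (2 ^ (j + 4) : ℝ))).toReal ≤ b * 2 ^ (d * j)
  shell : ∀ j : ℕ, a * 2 ^ (d * j) ≤
    (volume {y : M | (2 : ℝ) ^ j ≤ dist o y ∧ dist o y < 2 ^ (j + 1)}).toReal

/-- the shell -/
def shell (o : M) (j : ℕ) : Set M := {y : M | (2 : ℝ) ^ j ≤ dist o y ∧ dist o y < 2 ^ (j + 1)}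

omit [MeasureSpace M] [OpensMeasurableSpace M] in
theorem shell_sub (o : M) (j : ℕ) : shell o j ⊆ Metric.closedBall o (2 ^ (j + 4)) := by
  intro y hy
  rw [Metric.mem_closedBall, dist_comm]
  exact hy.2.le.trans (pow_le_pow_right₀ (by norm_num) (by omega))

theorem shell_meas (o : M) (j : ℕ) : MeasurableSet (shell o j) := by
  have h1 : Continuous (fun y : M => dist o y) := continuous_const.dist continuous_id
  have : shell o j = (fun y : M => dist o y) ⁻¹' (Set.Ico (2 ^ j) (2 ^ (j + 1))) := rfl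
  rw [this]
  exact h1.measurable measurableSet_Ico

/-- the numerical part: the bound for the probability of the bad event -/
theorem numeric {d : ℕ} (hd : 1 ≤ d) {a b : ℝ} (ha : 0 < a) (hb : 0 < b) {μ : PMF ℕ}
    (hμ : HeavyTail μ) : ∀ᶠ j : ℕ in atTop,
      Real.exp (-(a * 2 ^ (d * j) * tail μ (⌈4 * b * 2 ^ (d * j)⌉₊))) +
        Real.exp (b * 2 ^ (d * j)) * (1 / 2) ^ (⌈4 * b * 2 ^ (d * j)⌉₊) ≤
        4 / (j : ℝ) ^ 2 + 1 / b * (1 / 2) ^ j := by
  set K : ℕ → ℕ := fun j => ⌈4 * b * 2 ^ (d * j)⌉₊ with hK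
  have hpowtop : Tendsto (fun j : ℕ => (2 : ℝ) ^ (d * j)) atTop atTop := by
    refine tendsto_atTop_mono (fun j => ?_) (tendsto_pow_atTop_atTop_of_one_lt (one_lt_two (α := ℝ)))
    exact pow_le_pow_right₀ (by norm_num) (Nat.le_mul_of_pos_left _ (by omega))
  have hKtop : Tendsto K atTop atTop := by
    refine tendsto_nat_ceil_atTop.comp ?_
    exact hpowtop.const_mul_atTop (by positivity)
  have h1 : ∀ᶠ j in atTop, 10 * b / a ≤ (K j : ℝ) * tail μ (K j) / Real.log (Real.log (K j)) :=
    (hμ.comp hKtop).eventually_ge_atTop _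
  have hlog : Tendsto (fun j => Real.log (Real.log (K j : ℝ))) atTop atTop :=
    Real.tendsto_log_atTop.comp (Real.tendsto_log_atTop.comp
      (tendsto_natCast_atTop_atTop.comp hKtop))
  have hlogK : Tendsto (fun j => Real.log (K j : ℝ)) atTop atTop :=
    Real.tendsto_log_atTop.comp (tendsto_natCast_atTop_atTop.comp hKtop)
  have h2 : ∀ᶠ j : ℕ in atTop, (j : ℝ) / 2 ≤ Real.log (K j) := by
    have h3 : ∀ᶠ j : ℕ in atTop, -Real.log (4 * b) ≤ (j : ℝ) * (Real.log 2 - 1 / 2) := by
      have : 0 < Real.log 2 - 1 / 2 := by have := Real.log_two_gt_d9; linarith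
      exact (tendsto_natCast_atTop_atTop.atTop_mul_const this).eventually_ge_atTop _
    filter_upwards [h3] with j hj
    have h4 : Real.log (4 * b * 2 ^ (d * j)) ≤ Real.log (K j) :=
      Real.log_le_log (by positivity) (Nat.le_ceil _)
    rw [Real.log_mul (by positivity) (by positivity), Real.log_pow] at h4
    have h5 : (j : ℝ) * Real.log 2 ≤ ((d * j : ℕ) : ℝ) * Real.log 2 := by
      refine mul_le_mul_of_nonneg_right ?_ (Real.log_nonneg (by norm_num))
      exact_mod_cast Nat.le_mul_of_pos_left _ (by omega)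
    linarith
  filter_upwards [h1, hlog.eventually_gt_atTop 0, h2, hpowtop.eventually_ge_atTop (1 / b),
    eventually_gt_atTop 0, hlogK.eventually_gt_atTop 0] with j h1 hl h2 hp hj hlK
  refine add_le_add ?_ ?_
  · -- the void probability
    have hK5 : (K j : ℝ) ≤ 5 * b * 2 ^ (d * j) := by
      have h3 : (K j : ℝ) < 4 * b * 2 ^ (d * j) + 1 := Nat.ceil_lt_add_one (by positivity)
      have h4 : 1 ≤ b * 2 ^ (d * j) := by
        rw [div_le_iff₀ hb] at hp
        linarith
      linarith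
    have ht0 : 0 ≤ tail μ (K j) := ENNReal.toReal_nonneg
    rw [le_div_iff₀ hl] at h1
    have h6 : 2 * Real.log (Real.log (K j)) ≤ a * 2 ^ (d * j) * tail μ (K j) := by
      have h7 : (K j : ℝ) * tail μ (K j) ≤ 5 * b * 2 ^ (d * j) * tail μ (K j) :=
        mul_le_mul_of_nonneg_right hK5 ht0
      have h8 : 10 * b / a * Real.log (Real.log (K j)) ≤ 5 * b * 2 ^ (d * j) * tail μ (K j) :=
        h1.trans h7
      have h9 : (10 * b / a * Real.log (Real.log (K j))) * (a / (5 * b)) ≤
          (5 * b * 2 ^ (d * j) * tail μ (K j)) * (a / (5 * b)) :=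
        mul_le_mul_of_nonneg_right h8 (by positivity)
      have e1 : (10 * b / a * Real.log (Real.log (K j))) * (a / (5 * b)) =
          2 * Real.log (Real.log (K j)) := by field_simp; ring
      have e2 : (5 * b * 2 ^ (d * j) * tail μ (K j)) * (a / (5 * b)) =
          a * 2 ^ (d * j) * tail μ (K j) := by field_simp
      rw [e1, e2] at h9
      exact h9
    calc Real.exp (-(a * 2 ^ (d * j) * tail μ (K j)))
        ≤ Real.exp (-(2 * Real.log (Real.log (K j)))) :=
          Real.exp_le_exp.2 (neg_le_neg h6)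
      _ = 1 / (Real.log (K j)) ^ 2 := by
          rw [Real.exp_neg, two_mul, Real.exp_add, Real.exp_log hlK]
          rw [one_div, sq]
      _ ≤ 4 / (j : ℝ) ^ 2 := by
          have hj' : (0 : ℝ) < j := by exact_mod_cast hj
          rw [div_le_div_iff₀ (by positivity) (by positivity)]
          nlinarith
  · -- the upper tail
    have h3 : ((1 : ℝ) / 2) ^ (K j) ≤ Real.exp (-(4 * b * 2 ^ (d * j) * Real.log 2)) := by
      have h4 : ((1 : ℝ) / 2) ^ (K j) = Real.exp (-(K j * Real.log 2)) := by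
        rw [one_div, inv_pow, Real.exp_neg, mul_comm, Real.exp_mul, Real.exp_log (by norm_num),
          Real.rpow_natCast]
      rw [h4]
      refine Real.exp_le_exp.2 (neg_le_neg (mul_le_mul_of_nonneg_right (Nat.le_ceil _)
        (Real.log_nonneg (by norm_num))))
    have h5 : Real.exp (b * 2 ^ (d * j)) * (1 / 2) ^ (K j) ≤ Real.exp (-(b * 2 ^ (d * j))) := by
      calc Real.exp (b * 2 ^ (d * j)) * (1 / 2) ^ (K j)
          ≤ Real.exp (b * 2 ^ (d * j)) * Real.exp (-(4 * b * 2 ^ (d * j) * Real.log 2)) :=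
            mul_le_mul_of_nonneg_left h3 (Real.exp_pos _).le
        _ = Real.exp (b * 2 ^ (d * j) * (1 - 4 * Real.log 2)) := by
            rw [← Real.exp_add]; congr 1; ring
        _ ≤ Real.exp (-(b * 2 ^ (d * j))) := by
            refine Real.exp_le_exp.2 ?_
            have h6 : 1 - 4 * Real.log 2 ≤ -1 := by have := Real.log_two_gt_d9; linarith
            have h7 : 0 < b * 2 ^ (d * j) := by positivity
            nlinarith
    refine h5.trans ?_
    have h8 : b * 2 ^ (d * j) ≤ Real.exp (b * 2 ^ (d * j)) := by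
      have := Real.add_one_le_exp (b * 2 ^ (d * j)); linarith
    have h9 : Real.exp (-(b * 2 ^ (d * j))) ≤ (b * 2 ^ (d * j))⁻¹ := by
      rw [Real.exp_neg]
      exact inv_anti₀ (by positivity) h8
    refine h9.trans ?_
    rw [one_div, one_div, inv_pow, ← mul_inv]
    refine inv_anti₀ (by positivity) (mul_le_mul_of_nonneg_left ?_ hb.le)
    exact pow_le_pow_right₀ (by norm_num) (Nat.le_mul_of_pos_left _ (by omega))

/-- almost surely all late shells contain a point with many stubs -/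
theorem ae_chain {o : M} {d : ℕ} {a b : ℝ} (hM : Growth M o d a b)
    (h : IsMarkedPoisson P μ x D) (hμ : HeavyTail μ) :
    ∀ᵐ ω ∂P, ∀ᶠ j : ℕ in atTop, ∃ i, (2 : ℝ) ^ j ≤ dist o (x i ω) ∧
      dist o (x i ω) < 2 ^ (j + 1) ∧
      {k | x k ω ∈ Metric.closedBall o (2 ^ (j + 4))}.encard ≤ D i ω := by
  set K : ℕ → ℕ := fun j => ⌈4 * b * 2 ^ (d * j)⌉₊ with hK
  set bad : ℕ → Set Ω := fun j => {ω | ∀ i, x i ω ∈ shell o j → D i ω < K j} ∪
    {ω | (K j : ℝ≥0∞) ≤ count x (Metric.closedBall o (2 ^ (j + 4))) ω} with hbad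
  obtain ⟨J, hJ⟩ := eventually_atTop.1 (numeric hM.hd hM.ha hM.hb hμ)
  have hbd : ∀ j, J ≤ j → P (bad j) ≤
      ENNReal.ofReal (4 / (j : ℝ) ^ 2 + 1 / b * (1 / 2) ^ j) := by
    intro j hj
    refine (measure_union_le _ _).trans ?_
    have hb0 := hM.hb
    have hvB : volume (Metric.closedBall o (2 ^ (j + 4) : ℝ)) ≠ ∞ := hM.fin _
    have hvA : volume (shell o j) ≠ ∞ :=
      ne_top_of_le_ne_top hvB (measure_mono (shell_sub o j))
    have h1 := marked_void h (shell_meas o j) hvA (K j)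
    have h2 := upper_tail h.points (measurableSet_closedBall (x := o) (ε := (2 : ℝ) ^ (j + 4)))
      hvB (K j)
    refine (add_le_add h1 h2).trans ?_
    rw [← ENNReal.ofReal_add (Real.exp_pos _).le (by positivity)]
    refine ENNReal.ofReal_le_ofReal (le_trans (add_le_add ?_ ?_) (hJ j hj))
    · refine Real.exp_le_exp.2 (neg_le_neg (mul_le_mul_of_nonneg_right (hM.shell j) ?_))
      exact ENNReal.toReal_nonneg
    · exact mul_le_mul_of_nonneg_right (Real.exp_le_exp.2 (hM.ball j)) (by positivity)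
  have hsum : ∑' n : ℕ, P (bad (n + J)) ≠ ∞ := by
    have hs : Summable (fun j : ℕ => 4 / (j : ℝ) ^ 2 + 1 / b * (1 / 2) ^ j) := by
      refine Summable.add ?_ ?_
      · have := (Real.summable_one_div_nat_pow (p := 2)).2 (by norm_num)
        refine (this.mul_left 4).congr fun j => ?_
        ring
      · exact (summable_geometric_of_lt_one (by norm_num) (by norm_num)).mul_left _
    have hs' := (summable_nat_add_iff J).2 hs
    refine ne_top_of_le_ne_top ?_ (ENNReal.tsum_le_tsum fun n => hbd (n + J) (by omega))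
    rw [← ENNReal.ofReal_tsum_of_nonneg _ hs']
    · exact ENNReal.ofReal_ne_top
    · intro n
      have := hM.hb
      positivity
  have hBC := ae_eventually_notMem hsum
  filter_upwards [hBC] with ω hω
  obtain ⟨N, hN⟩ := eventually_atTop.1 hω
  refine eventually_atTop.2 ⟨N + J, fun j hj => ?_⟩
  have h1 := hN (j - J) (by omega)
  rw [show j - J + J = j by omega] at h1
  rw [hbad] at h1
  simp only [Set.mem_union, Set.mem_ofPred_eq, not_or, not_forall, not_lt, not_le] at h1
  obtain ⟨⟨i, hi, hDi⟩, h2⟩ := h1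
  refine ⟨i, hi.1, hi.2, ?_⟩
  rw [count_eq] at h2
  have h3 : {k | x k ω ∈ Metric.closedBall o (2 ^ (j + 4))}.encard ≤ (K j : ℕ∞) := by
    have h4 : (({k | x k ω ∈ Metric.closedBall o (2 ^ (j + 4))}.encard : ℕ∞) : ℝ≥0∞) ≤
        (((K j : ℕ) : ℕ∞) : ℝ≥0∞) := by
      simpa using h2.le
    exact_mod_cast h4
  exact h3.trans (by exact_mod_cast hDi)

/-- the main theorem for general spaces -/
theorem main {o : M} {d : ℕ} {a b : ℝ} (hM : Growth M o d a b)
    (h : IsMarkedPoisson P μ x D) (hμ : HeavyTail μ) :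
    ∀ᵐ ω ∂P, (∃ G, IsStableMultiMatching (fun i => x i ω) (fun i => D i ω) G) ∧
      ∀ G, IsStableMultiMatching (fun i => x i ω) (fun i => D i ω) G →
        (∀ i, (G.neighborSet i).encard = D i ω) ∧ HasInfiniteComponent G := by
  have hfin : ∀ᵐ ω ∂P, ∀ n : ℕ, {i | x i ω ∈ Metric.closedBall o (n : ℝ)}.Finite := by
    rw [ae_all_iff]
    exact fun n => ae_finite h.points measurableSet_closedBall (hM.fin _)
  filter_upwards [ae_chain hM h hμ, hfin] with ω hω hf
  refine ⟨?_, fun G hG => det o hω hG⟩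
  refine exists_stable _ _ fun i r => ?_
  obtain ⟨n, hn⟩ := exists_nat_ge (dist o (x i ω) + r)
  refine (hf n).subset fun k hk => ?_
  simp only [Set.mem_ofPred_eq, Metric.mem_closedBall] at hk ⊢
  rw [dist_comm]
  calc dist o (x k ω) ≤ dist o (x i ω) + dist (x i ω) (x k ω) := dist_triangle _ _ _
    _ ≤ n := by linarith

end Pool.Agent.U150.SM
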