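import Pool.Agent.U150.SM.Main
import Pool.Agent.Helper56_LP.ExistsMobile

/-! Volume growth of normed spaces, existence of marked Poisson processes, heavy tailed laws. -/

set_option autoImplicit false

namespace Pool.Agent.U150.SM

open MeasureTheory ProbabilityTheory Set Filter Topology
open scoped ENNReal NNReal

/-- normed spaces have the required growth of volumes -/
theorem growth_of_normed (V : Type) [NormedAddCommGroup V] [NormedSpace ℝ V] [MeasureSpace V]
    [BorelSpace V] [FiniteDimensional ℝ V] [(volume : Measure V).IsAddHaarMeasure]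
    (hd : 1 ≤ Module.finrank ℝ V) :
    Growth V (0 : V) (Module.finrank ℝ V) (volume (Metric.ball (0 : V) 1)).toReal
      (16 ^ (Module.finrank ℝ V) * (volume (Metric.ball (0 : V) 1)).toReal) := by
  set d := Module.finrank ℝ V with hd'
  set w : ℝ≥0∞ := volume (Metric.ball (0 : V) 1) with hw
  have hw0 : 0 < w := Metric.measure_ball_pos _ _ one_pos
  have hwt : w ≠ ∞ := measure_ball_lt_top.ne
  have hwr : 0 < w.toReal := ENNReal.toReal_pos hw0.ne' hwt
  have hnt : Nontrivial V := Module.nontrivial_of_finrank_pos (R := ℝ) (by omega)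
  refine ⟨hd, hwr, by positivity, fun r => measure_closedBall_lt_top.ne, ?_, ?_⟩
  · intro j
    rw [Measure.addHaar_closedBall _ _ (by positivity), ENNReal.toReal_mul,
      ENNReal.toReal_ofReal (by positivity), ← hd', ← hw]
    refine le_of_eq ?_
    rw [pow_add, mul_pow, ← pow_mul, mul_comm j d]
    norm_num
    ring
  · intro j
    have h1 : {y : V | (2 : ℝ) ^ j ≤ dist 0 y ∧ dist 0 y < 2 ^ (j + 1)} =
        Metric.ball (0 : V) (2 ^ (j + 1)) \ Metric.ball (0 : V) (2 ^ j) := by
      ext y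
      simp only [Set.mem_ofPred_eq, Set.mem_sdiff, Metric.mem_ball, not_lt, dist_comm y 0]
      tauto
    have hsub : Metric.ball (0 : V) (2 ^ j) ⊆ Metric.ball (0 : V) (2 ^ (j + 1)) :=
      Metric.ball_subset_ball (pow_le_pow_right₀ (by norm_num) (by omega))
    have hb1 : volume (Metric.ball (0 : V) (2 ^ (j + 1))) =
        ENNReal.ofReal (((2 : ℝ) ^ (j + 1)) ^ d) * w :=
      Measure.addHaar_ball volume (0 : V) (by positivity)
    have hb2 : volume (Metric.ball (0 : V) (2 ^ j)) =
        ENNReal.ofReal (((2 : ℝ) ^ j) ^ d) * w :=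
      Measure.addHaar_ball volume (0 : V) (by positivity)
    rw [h1, measure_sdiff hsub measurableSet_ball.nullMeasurableSet measure_ball_lt_top.ne,
      ENNReal.toReal_sub_of_le (measure_mono hsub) measure_ball_lt_top.ne, hb1, hb2,
      ENNReal.toReal_mul, ENNReal.toReal_mul, ENNReal.toReal_ofReal (by positivity),
      ENNReal.toReal_ofReal (by positivity)]
    have h2 : ((2 : ℝ) ^ (j + 1)) ^ d = 2 ^ d * 2 ^ (d * j) := by
      rw [← pow_mul, ← pow_add]; congr 1; ring
    have h3 : ((2 : ℝ) ^ j) ^ d = 2 ^ (d * j) := by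
      rw [← pow_mul]; congr 1; ring
    rw [h2, h3]
    have h4 : (2 : ℝ) ≤ 2 ^ d := by
      calc (2 : ℝ) = 2 ^ 1 := by norm_num
        _ ≤ 2 ^ d := pow_le_pow_right₀ (by norm_num) hd
    have h5 : 0 < (2 : ℝ) ^ (d * j) * w.toReal := by positivity
    nlinarith

/-- a measure preserving map sends a Poisson process to a Poisson process -/
theorem poisson_map {M N Ω : Type} [MeasureSpace M] [MeasureSpace N] [MeasurableSpace Ω]
    {P : Measure Ω} {x : ℕ → Ω → M} (f : M → N) (hf : MeasurePreserving f volume volume)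
    (hx : IsPoissonProcess P x) : IsPoissonProcess P (fun i ω => f (x i ω)) where
  measurable i := hf.measurable.comp (hx.measurable i)
  law A hA hAf := by
    have h1 : count (fun i ω => f (x i ω)) A = count x (f ⁻¹' A) := rfl
    have h2 : volume (f ⁻¹' A) = volume A := hf.measure_preimage hA.nullMeasurableSet
    rw [h1, hx.law _ (hf.measurable hA) (by rw [h2]; exact hAf), h2]
  indep ι _ A hA hAf hd := by
    refine hx.indep ι (fun i => f ⁻¹' A i) (fun i => hf.measurable (hA i)) (fun i => ?_) ?_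
    · rw [hf.measure_preimage (hA i).nullMeasurableSet]; exact hAf i
    · intro i j hij
      exact (hd hij).preimage f

/-- lifting to a larger probability space -/
theorem poisson_lift {M Ω Ω' : Type} [MeasureSpace M] [MeasurableSpace Ω] [MeasurableSpace Ω']
    {P : Measure Ω} {P' : Measure Ω'} {x : ℕ → Ω → M} {f : Ω' → Ω} (hf : MeasurePreserving f P' P)
    (hx : IsPoissonProcess P x) : IsPoissonProcess P' (fun i ω => x i (f ω)) where
  measurable i := (hx.measurable i).comp hf.measurable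
  law A hA hAf := by
    have h1 : count (fun i ω => x i (f ω)) A = count x A ∘ f := rfl
    rw [h1, ← Measure.map_map (measurable_count hx.measurable hA) hf.measurable, hf.map_eq]
    exact hx.law A hA hAf
  indep ι _ A hA hAf hd :=
    Pool.Agent.Helper56_LP.indep_lift (X := fun i => count x (A i)) hf
      (fun i => measurable_count hx.measurable (hA i)) (hx.indep ι A hA hAf hd)

theorem exists_poisson_E (d : ℕ) (hd : 1 ≤ d) :
    ∃ (Ω : Type) (_ : MeasurableSpace Ω) (P : Measure Ω) (_ : IsProbabilityMeasure P)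
      (x : ℕ → Ω → EuclideanSpace ℝ (Fin d)), IsPoissonProcess P x := by
  obtain ⟨Ω, mΩ, P, hP, x, hx⟩ := Pool.Agent.Helper56_LP.exists_ppp d hd 1 one_pos
  refine ⟨Ω, mΩ, P, hP, x, hx.measurable, ?_, hx.indep⟩
  intro A hA hAf
  have h1 := hx.law A hA hAf
  rw [one_mul] at h1
  exact h1

theorem exists_poisson_R :
    ∃ (Ω : Type) (_ : MeasurableSpace Ω) (P : Measure Ω) (_ : IsProbabilityMeasure P)
      (x : ℕ → Ω → ℝ), IsPoissonProcess P x := by
  obtain ⟨Ω, mΩ, P, hP, x, hx⟩ := exists_poisson_E 1 le_rfl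
  have h1 := PiLp.volume_preserving_ofLp (Fin 1)
  have h2 := volume_preserving_funUnique (Fin 1) ℝ
  exact ⟨Ω, mΩ, P, hP, _, poisson_map _ (h2.comp h1) hx⟩

/-- adding marks -/
theorem exists_marked {M : Type} [MeasureSpace M] (μ : PMF ℕ)
    (h : ∃ (Ω : Type) (_ : MeasurableSpace Ω) (P : Measure Ω) (_ : IsProbabilityMeasure P)
      (x : ℕ → Ω → M), IsPoissonProcess P x) :
    ∃ (Ω : Type) (_ : MeasurableSpace Ω) (P : Measure Ω) (_ : IsProbabilityMeasure P)
      (x : ℕ → Ω → M) (D : ℕ → Ω → ℕ), IsMarkedPoisson P μ x D := by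
  obtain ⟨Ω, mΩ, P, hP, x, hx⟩ := h
  set Q : Measure (ℕ → ℕ) := Measure.infinitePi (fun _ : ℕ => μ.toMeasure) with hQ
  have h1 : MeasurePreserving (Prod.fst : Ω × (ℕ → ℕ) → Ω) (P.prod Q) P := measurePreserving_fst
  have h2 : MeasurePreserving (Prod.snd : Ω × (ℕ → ℕ) → _) (P.prod Q) Q := measurePreserving_snd
  refine ⟨Ω × (ℕ → ℕ), inferInstance, P.prod Q, inferInstance, fun i ω => x i ω.1,
    fun i ω => ω.2 i, poisson_lift h1 hx, fun i => (measurable_pi_apply i).comp measurable_snd,
    h2.map_eq, ?_⟩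
  have h3 : IndepFun (Prod.fst : Ω × (ℕ → ℕ) → Ω) (Prod.snd : Ω × (ℕ → ℕ) → (ℕ → ℕ))
      (P.prod Q) := by
    rw [indepFun_iff_map_prod_eq_prod_map_map measurable_fst.aemeasurable
      measurable_snd.aemeasurable, h1.map_eq, h2.map_eq]
    have : (fun ω : Ω × (ℕ → ℕ) => (ω.1, ω.2)) = id := rfl
    rw [this, Measure.map_id]
  exact h3.comp (φ := fun ω i => x i ω) (ψ := id) (measurable_pi_iff.mpr hx.measurable)
    measurable_id

/-! ### Heavy tailed laws -/

/-- the tail does not decrease too much under mixtures -/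
theorem heavy_of_le {μ ν : PMF ℕ} {c : ℝ} (hc : 0 < c) (hν : HeavyTail ν)
    (h : ∀ k, c * tail ν k ≤ tail μ k) : HeavyTail μ := by
  unfold HeavyTail at *
  have h1 := hν.const_mul_atTop hc
  refine tendsto_atTop_mono' _ ?_ h1
  have hlog : Tendsto (fun j : ℕ => Real.log (Real.log (j : ℝ))) atTop atTop :=
    Real.tendsto_log_atTop.comp (Real.tendsto_log_atTop.comp tendsto_natCast_atTop_atTop)
  filter_upwards [hlog.eventually_gt_atTop 0] with k hk
  have h2 := h k
  rw [← mul_div_assoc]
  refine div_le_div_of_nonneg_right ?_ hk.le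
  calc c * (k * tail ν k) = k * (c * tail ν k) := by ring
    _ ≤ k * tail μ k := mul_le_mul_of_nonneg_left h2 (Nat.cast_nonneg k)

/-- the basic mass function -/
noncomputable def g (n : ℕ) : ℝ := 1 / Real.sqrt (n + 1) - 1 / Real.sqrt (n + 2)

theorem g_nonneg (n : ℕ) : 0 ≤ g n := by
  unfold g
  have : 1 / Real.sqrt ((n : ℝ) + 2) ≤ 1 / Real.sqrt (n + 1) :=
    one_div_le_one_div_of_le (by positivity) (Real.sqrt_le_sqrt (by linarith))
  linarith

theorem g_hasSum (k : ℕ) : HasSum (fun n : ℕ => g (n + k)) (1 / Real.sqrt (k + 1)) := by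
  rw [hasSum_iff_tendsto_nat_of_nonneg (fun n => g_nonneg _)]
  have h1 : ∀ n : ℕ, ∑ i ∈ Finset.range n, g (i + k) =
      1 / Real.sqrt (k + 1) - 1 / Real.sqrt ((n : ℝ) + k + 1) := by
    intro n
    induction n with
    | zero => simp
    | succ n ih =>
      rw [Finset.sum_range_succ, ih]
      unfold g
      push_cast
      have e : (n : ℝ) + k + 2 = n + 1 + k + 1 := by ring
      rw [e]
      ring
  simp_rw [h1]
  have h2 : Tendsto (fun n : ℕ => 1 / Real.sqrt ((n : ℝ) + k + 1)) atTop (𝓝 0) := by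
    have h3 : Tendsto (fun n : ℕ => Real.sqrt ((n : ℝ) + k + 1)) atTop atTop := by
      refine Real.tendsto_sqrt_atTop.comp ?_
      refine tendsto_atTop_add_const_right _ _ (tendsto_atTop_add_const_right _ _ ?_)
      exact tendsto_natCast_atTop_atTop
    have h4 := h3.inv_tendsto_atTop
    simp only [one_div]
    exact h4
  simpa using (tendsto_const_nhds (x := 1 / Real.sqrt ((k : ℝ) + 1))).sub h2

/-- the basic heavy tailed law -/
noncomputable def base : PMF ℕ :=
  ⟨fun n => ENNReal.ofReal (g n), by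
    have h := g_hasSum 0
    simp only [add_zero, Nat.cast_zero, zero_add, Real.sqrt_one, div_one] at h
    have h2 := ENNReal.hasSum_coe.2 (HasSum.toNNReal (fun n => g_nonneg n) h)
    simpa [ENNReal.ofReal] using h2⟩

theorem base_apply (n : ℕ) : base n = ENNReal.ofReal (g n) := rfl

/-- the heavy tailed law started at `m` -/
noncomputable def law (m : ℕ) : PMF ℕ := PMF.map (fun n => n + m) base

theorem law_apply (m n : ℕ) : law m n = if m ≤ n then ENNReal.ofReal (g (n - m)) else 0 := by
  unfold law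
  rw [PMF.map_apply]
  split_ifs with h
  · rw [tsum_eq_single (n - m)]
    · rw [if_pos (by omega), base_apply]
    · intro k hk
      rw [if_neg (by omega)]
  · refine ENNReal.tsum_eq_zero.2 fun k => ?_
    rw [if_neg (by omega)]

theorem tail_eq (μ : PMF ℕ) (k : ℕ) : tail μ k = (∑' n : ℕ, μ (n + k)).toReal := by
  unfold tail
  rw [PMF.toMeasure_apply _ (MeasurableSet.of_discrete)]
  congr 1
  have h0 : ∑ n ∈ Finset.range k, (Set.Ici k).indicator μ n = 0 := by
    refine Finset.sum_eq_zero fun n hn => ?_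
    rw [Finset.mem_range] at hn
    rw [Set.indicator_of_notMem]
    simp only [Set.mem_Ici, not_le]; exact hn
  have h1 := Summable.sum_add_tsum_nat_add' (f := (Set.Ici k).indicator μ) (k := k)
    ENNReal.summable
  rw [h0, zero_add] at h1
  rw [← h1]
  refine tsum_congr fun n => ?_
  rw [Set.indicator_of_mem]
  simp

theorem tail_law (m k : ℕ) : 1 / Real.sqrt (k + 1) ≤ tail (law m) k := by
  have h1 : ENNReal.ofReal (1 / Real.sqrt (k + 1)) ≤ ∑' n : ℕ, (law m) (n + k) := by
    rcases le_or_gt m k with h | h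
    · have h2 : ∀ n, (law m) (n + k) = ENNReal.ofReal (g (n + (k - m))) := by
        intro n
        rw [law_apply, if_pos (by omega)]
        congr 2
        omega
      simp_rw [h2]
      have h3 := g_hasSum (k - m)
      rw [← ENNReal.ofReal_tsum_of_nonneg (fun n => g_nonneg _) h3.summable, h3.tsum_eq]
      refine ENNReal.ofReal_le_ofReal (one_div_le_one_div_of_le (by positivity)
        (Real.sqrt_le_sqrt ?_))
      have : ((k - m : ℕ) : ℝ) ≤ k := by exact_mod_cast Nat.sub_le k m
      linarith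
    · have h2 : ∑' n : ℕ, (law m) (n + k) = 1 := by
        have h3 := Summable.sum_add_tsum_nat_add' (f := fun n => law m n) (k := k)
          ENNReal.summable
        have h4 : ∑ n ∈ Finset.range k, law m n = 0 := by
          refine Finset.sum_eq_zero fun n hn => ?_
          rw [Finset.mem_range] at hn
          rw [law_apply, if_neg (by omega)]
        rw [h4, zero_add, (law m).tsum_coe] at h3
        exact h3
      rw [h2, ENNReal.ofReal_le_one]
      rw [div_le_one (by positivity)]
      calc (1 : ℝ) = Real.sqrt 1 := Real.sqrt_one.symm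
        _ ≤ Real.sqrt (k + 1) := Real.sqrt_le_sqrt (by
            have : (0 : ℝ) ≤ k := Nat.cast_nonneg k
            linarith)
  rw [tail_eq]
  have h2 : (∑' n : ℕ, (law m) (n + k)) ≠ ∞ := by
    refine ne_top_of_le_ne_top ENNReal.one_ne_top ?_
    rw [← (law m).tsum_coe]
    exact ENNReal.tsum_comp_le_tsum_of_injective (add_left_injective k) _
  have h3 := ENNReal.toReal_mono h2 h1
  rwa [ENNReal.toReal_ofReal (by positivity)] at h3

theorem heavy_law (m : ℕ) : HeavyTail (law m) := by
  unfold HeavyTail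
  have h0 : Tendsto (fun k : ℕ => 1 / 8 * (k : ℝ) ^ (1 / 4 : ℝ)) atTop atTop :=
    ((tendsto_rpow_atTop (by norm_num : (0 : ℝ) < 1 / 4)).comp
      tendsto_natCast_atTop_atTop).const_mul_atTop (by norm_num)
  refine tendsto_atTop_mono' _ ?_ h0
  have hlog : Tendsto (fun j : ℕ => Real.log (Real.log (j : ℝ))) atTop atTop :=
    Real.tendsto_log_atTop.comp (Real.tendsto_log_atTop.comp tendsto_natCast_atTop_atTop)
  have hlog1 : Tendsto (fun j : ℕ => Real.log (j : ℝ)) atTop atTop :=
    Real.tendsto_log_atTop.comp tendsto_natCast_atTop_atTop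
  filter_upwards [hlog.eventually_gt_atTop 0, hlog1.eventually_gt_atTop 0,
    eventually_ge_atTop 1] with k hk hk1 hk2
  have hk0 : (1 : ℝ) ≤ k := by exact_mod_cast hk2
  have h1 : Real.log (Real.log k) ≤ Real.log k := by
    have := Real.log_le_sub_one_of_pos hk1
    linarith
  have h2 : Real.log k ≤ (k : ℝ) ^ (1 / 4 : ℝ) / (1 / 4) :=
    Real.log_le_rpow_div (by linarith) (by norm_num)
  have h3 : Real.log (Real.log k) ≤ 4 * (k : ℝ) ^ (1 / 4 : ℝ) := by
    calc Real.log (Real.log k) ≤ (k : ℝ) ^ (1 / 4 : ℝ) / (1 / 4) := h1.trans h2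
      _ = 4 * (k : ℝ) ^ (1 / 4 : ℝ) := by ring
  rw [le_div_iff₀ hk]
  have h4 := tail_law m k
  have h5 : Real.sqrt ((k : ℝ) + 1) ≤ 2 * Real.sqrt k := by
    rw [show 2 * Real.sqrt k = Real.sqrt (4 * k) by
      rw [Real.sqrt_mul (by norm_num), show (4 : ℝ) = 2 ^ 2 by norm_num,
        Real.sqrt_sq (by norm_num)]]
    exact Real.sqrt_le_sqrt (by linarith)
  have hs : 0 < Real.sqrt k := Real.sqrt_pos.2 (by linarith)
  have h6 : 1 / (2 * Real.sqrt k) ≤ tail (law m) k :=
    (one_div_le_one_div_of_le (by positivity) h5).trans h4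
  have h7 : Real.sqrt k / 2 ≤ k * tail (law m) k := by
    calc Real.sqrt k / 2 = k * (1 / (2 * Real.sqrt k)) := by
          have : (k : ℝ) = Real.sqrt k * Real.sqrt k := (Real.mul_self_sqrt (by linarith)).symm
          field_simp
          rw [Real.sq_sqrt (by linarith)]
      _ ≤ k * tail (law m) k := mul_le_mul_of_nonneg_left h6 (by linarith)
  refine le_trans ?_ h7
  have h8 : (k : ℝ) ^ (1 / 4 : ℝ) * (k : ℝ) ^ (1 / 4 : ℝ) = Real.sqrt k := by
    rw [← Real.rpow_add (by linarith), Real.sqrt_eq_rpow]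
    norm_num
  have h9 : 0 < (k : ℝ) ^ (1 / 4 : ℝ) := Real.rpow_pos_of_pos (by linarith) _
  calc 1 / 8 * (k : ℝ) ^ (1 / 4 : ℝ) * Real.log (Real.log k)
      ≤ 1 / 8 * (k : ℝ) ^ (1 / 4 : ℝ) * (4 * (k : ℝ) ^ (1 / 4 : ℝ)) :=
        mul_le_mul_of_nonneg_left h3 (by positivity)
    _ = Real.sqrt k / 2 := by rw [← h8]; ring

end Pool.Agent.U150.SM
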